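import Mathlib
import Pool.Agent.Lib.Ehrhart.Final

set_option autoImplicit false

/-!
# Ehrhart type bound in Euclidean space: transfer lemmas
-/

namespace Pool.Agent.Lib.H61I.Ehr

open MeasureTheory Set

variable {n : ℕ}

/-- the ray from an interior point of a compact convex set has exactly one boundary point -/
lemma exists_unique_exit {K : Set (EuclideanSpace ℝ (Fin n))} (hK : IsCompact K)
    (hc : Convex ℝ K) {b : EuclideanSpace ℝ (Fin n)} (hb : b ∈ interior K) (hb0 : b ≠ 0) :
    ∃! x, x ∈ frontier K ∧ ∃ t : ℝ, 0 ≤ t ∧ x = b - t • b := by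
  set S : Set ℝ := {t | 0 ≤ t ∧ b - t • b ∈ K} with hS
  have hbn : 0 < ‖b‖ := norm_pos_iff.2 hb0
  have hcont : Continuous (fun s : ℝ => b - s • b) := by fun_prop
  have hSclosed : IsClosed S := by
    have : S = Ici 0 ∩ (fun s : ℝ => b - s • b) ⁻¹' K := rfl
    rw [this]
    exact isClosed_Ici.inter (hK.isClosed.preimage hcont)
  obtain ⟨M, hM⟩ := hK.isBounded.subset_closedBall (0 : EuclideanSpace ℝ (Fin n))
  have hSbdd : BddAbove S := by
    refine ⟨(M + ‖b‖) / ‖b‖, fun s hs => ?_⟩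
    rw [le_div_iff₀ hbn]
    have h1 : ‖b - s • b‖ ≤ M := by
      have := hM hs.2
      simpa [Metric.mem_closedBall, dist_zero_right] using this
    have h2 : ‖s • b‖ ≤ ‖b‖ + ‖b - s • b‖ := by
      have := norm_sub_le b (b - s • b)
      simpa using this
    rw [norm_smul, Real.norm_eq_abs, abs_of_nonneg hs.1] at h2
    linarith
  have hSne : S.Nonempty := ⟨0, le_rfl, by simpa using interior_subset hb⟩
  have hTS : sSup S ∈ S := hSclosed.csSup_mem hSne hSbdd
  have hfront : b - sSup S • b ∈ frontier K := by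
    rw [hK.isClosed.frontier_eq]
    refine ⟨hTS.2, fun hint => ?_⟩
    have hopen : IsOpen ((fun s : ℝ => b - s • b) ⁻¹' interior K) :=
      isOpen_interior.preimage hcont
    obtain ⟨ε, hε, hball⟩ := Metric.isOpen_iff.1 hopen (sSup S) hint
    have h1 : sSup S + ε / 2 ∈ S := by
      refine ⟨by linarith [hTS.1], interior_subset (hball ?_)⟩
      rw [Metric.mem_ball, Real.dist_eq]
      rw [abs_of_pos (by linarith)]
      linarith
    have := le_csSup hSbdd h1
    linarith
  have hlt : ∀ s t : ℝ, 0 ≤ s → s < t → b - t • b ∈ K → b - s • b ∈ interior K := by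
    intro s t hs hst ht
    have ht0 : 0 < t := hs.trans_lt hst
    have h1 := hc.combo_interior_self_mem_interior hb ht
      (show (0 : ℝ) < 1 - s / t by rw [sub_pos, div_lt_one ht0]; exact hst)
      (show (0 : ℝ) ≤ s / t by positivity) (by ring)
    have h2 : (1 - s / t) • b + (s / t) • (b - t • b) = b - s • b := by
      rw [smul_sub, smul_smul, div_mul_cancel₀ _ ht0.ne', sub_smul, one_smul]
      abel
    rwa [h2] at h1
  refine ⟨b - sSup S • b, ⟨hfront, sSup S, hTS.1, rfl⟩, ?_⟩
  rintro y ⟨hy, t, ht, rfl⟩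
  rw [hK.isClosed.frontier_eq] at hy hfront
  have h1 : t ≤ sSup S := le_csSup hSbdd ⟨ht, hy.1⟩
  rcases h1.lt_or_eq with h2 | h2
  · exact absurd (hlt t (sSup S) ht h2 hTS.2) hy.2
  · rw [h2]

/-- at the exit point the parameter is larger than `1` when `0` is an interior point -/
lemma one_lt_of_exit {K : Set (EuclideanSpace ℝ (Fin n))} (hc : Convex ℝ K)
    {b : EuclideanSpace ℝ (Fin n)} (hb : b ∈ interior K) (h0 : (0 : EuclideanSpace ℝ (Fin n)) ∈ interior K)
    {t : ℝ} (ht : 0 ≤ t) (hf : b - t • b ∈ frontier K) : 1 < t := by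
  by_contra hle
  push Not at hle
  have h1 := hc.interior hb h0 (show (0 : ℝ) ≤ 1 - t by linarith) ht (by ring)
  have h2 : (1 - t) • b + t • (0 : EuclideanSpace ℝ (Fin n)) = b - t • b := by
    rw [smul_zero, add_zero, sub_smul, one_smul]
  rw [h2] at h1
  exact hf.2 h1

lemma volume_image {K : Set (EuclideanSpace ℝ (Fin n))} (hK : MeasurableSet K) :
    volume ((WithLp.ofLp : EuclideanSpace ℝ (Fin n) → (Fin n → ℝ)) '' K) = volume K := by
  have h1 : (WithLp.ofLp : EuclideanSpace ℝ (Fin n) → (Fin n → ℝ)) '' K =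
      (WithLp.toLp 2 : (Fin n → ℝ) → EuclideanSpace ℝ (Fin n)) ⁻¹' K := by
    ext x
    constructor
    · rintro ⟨y, hy, rfl⟩
      simpa using hy
    · intro hx
      exact ⟨WithLp.toLp 2 x, hx, rfl⟩
  rw [h1]
  exact (PiLp.volume_preserving_toLp (Fin n)).measure_preimage hK.nullMeasurableSet

lemma integral_image {K : Set (EuclideanSpace ℝ (Fin n))} (hK : IsCompact K) :
    ∫ x in (WithLp.ofLp : EuclideanSpace ℝ (Fin n) → (Fin n → ℝ)) '' K, x =
      WithLp.ofLp (∫ x in K, x) := by
  have h1 : (WithLp.ofLp : EuclideanSpace ℝ (Fin n) → (Fin n → ℝ)) '' K =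
      (WithLp.toLp 2 : (Fin n → ℝ) → EuclideanSpace ℝ (Fin n)) ⁻¹' K := by
    ext x
    constructor
    · rintro ⟨y, hy, rfl⟩
      simpa using hy
    · intro hx
      exact ⟨WithLp.toLp 2 x, hx, rfl⟩
  have h2 := (PiLp.volume_preserving_toLp (Fin n)).setIntegral_preimage_emb
    (MeasurableEquiv.toLp 2 (Fin n → ℝ)).measurableEmbedding
    (fun x : EuclideanSpace ℝ (Fin n) => (WithLp.ofLp x : Fin n → ℝ)) K
  rw [← h1] at h2
  have h3 : ∫ x in K, (WithLp.ofLp x : Fin n → ℝ) = WithLp.ofLp (∫ x in K, x) := by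
    have hint : IntegrableOn (fun x : EuclideanSpace ℝ (Fin n) => x) K :=
      continuous_id.continuousOn.integrableOn_compact hK
    exact ((EuclideanSpace.equiv (Fin n) ℝ).toContinuousLinearMap.integral_comp_comm hint)
  rw [← h3, ← h2]

end Pool.Agent.Lib.H61I.Ehr
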