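import Mathlib
import Pool.Agent.Lib.H38.KpMain

set_option autoImplicit false

/-!
# Powers of univalent functions: the branch of the logarithm of `f(z)/z`
-/

namespace Pool.Agent.Lib.H61I.Kp

open Complex Set Metric

/-- the branch of `log (f(z)/z)` exists for every normalised injective function -/
lemma exists_branch {f : ℂ → ℂ} (hf : DifferentiableOn ℂ f (ball 0 1)) (hinj : InjOn f (ball 0 1))
    (h0 : f 0 = 0) (h1 : deriv f 0 = 1) :
    ∃ h : ℂ → ℂ, DifferentiableOn ℂ h (ball 0 1) ∧ h 0 = 0 ∧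
      ∀ z ∈ ball (0 : ℂ) 1, f z = z * exp (h z) := by
  have hU : ball (0 : ℂ) 1 ∈ nhds (0 : ℂ) := ball_mem_nhds _ one_pos
  have hφ : DifferentiableOn ℂ (dslope f 0) (ball 0 1) :=
    (Complex.differentiableOn_dslope hU).2 hf
  have hφ1 : dslope f 0 0 = 1 := by rw [dslope_same, h1]
  have hφz : ∀ z : ℂ, z * dslope f 0 z = f z := by
    intro z
    have := sub_smul_dslope f 0 z
    rw [sub_zero, smul_eq_mul, h0, sub_zero] at this
    exact this
  have hφ0 : ∀ z ∈ ball (0 : ℂ) 1, dslope f 0 z ≠ 0 := by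
    intro z hz h
    by_cases hz0 : z = 0
    · rw [hz0, hφ1] at h
      exact one_ne_zero h
    · have h2 := hφz z
      rw [h, mul_zero] at h2
      exact hz0 (hinj hz (mem_ball_self one_pos) (by rw [← h2, h0]))
  obtain ⟨h, hh, hh0, hhe⟩ := Lib.H38.Kp.exists_log hφ hφ0 hφ1
  refine ⟨h, hh, hh0, fun z hz => ?_⟩
  rw [hhe z hz, hφz]

/-- the branch is unique on the disk -/
lemma branch_unique {f h g : ℂ → ℂ} (hh : DifferentiableOn ℂ h (ball 0 1)) (hh0 : h 0 = 0)
    (hhe : ∀ z ∈ ball (0 : ℂ) 1, f z = z * exp (h z))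
    (hg : DifferentiableOn ℂ g (ball 0 1)) (hg0 : g 0 = 0)
    (hge : ∀ z ∈ ball (0 : ℂ) 1, f z = z * exp (g z)) : EqOn g h (ball 0 1) := by
  have hd : DifferentiableOn ℂ (fun z => exp (g z - h z)) (ball 0 1) := (hg.sub hh).cexp
  have hone : ∀ z ∈ ball (0 : ℂ) 1, exp (g z - h z) = 1 := by
    intro z hz
    by_cases hz0 : z = 0
    · rw [hz0, hg0, hh0, sub_zero, exp_zero]
    · have h1 := (hhe z hz).symm.trans (hge z hz)
      have h2 := mul_left_cancel₀ hz0 h1
      rw [exp_sub, ← h2, div_self (exp_ne_zero _)]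
  have hder : ∀ z ∈ ball (0 : ℂ) 1, deriv (fun z => g z - h z) z = 0 := by
    intro z hz
    have hzn : ball (0 : ℂ) 1 ∈ nhds z := isOpen_ball.mem_nhds hz
    have h3 : HasDerivAt (fun z => g z - h z) (deriv (fun z => g z - h z) z) z :=
      ((hg.sub hh).differentiableAt hzn).hasDerivAt
    have h4 := h3.cexp
    have h5 : HasDerivAt (fun z => exp (g z - h z)) 0 z := by
      refine (hasDerivAt_const z (1 : ℂ)).congr_of_eventuallyEq ?_
      filter_upwards [hzn] with y hy using hone y hy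
    have h6 := h4.unique h5
    rw [hone z hz, one_mul] at h6
    exact h6
  have hconst : ∀ z ∈ ball (0 : ℂ) 1, g z - h z = g 0 - h 0 := by
    intro z hz
    exact isOpen_ball.is_const_of_deriv_eq_zero (convex_ball (0 : ℂ) 1).isPreconnected
      (hg.sub hh) (fun y hy => hder y hy) hz (mem_ball_self one_pos)
  intro z hz
  have := hconst z hz
  rw [hg0, hh0, sub_zero] at this
  exact sub_eq_zero.1 this

end Pool.Agent.Lib.H61I.Kp
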