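import Mathlib
import Pool.Agent.Lib.Helper20.SecantAvoid

set_option autoImplicit false

/-!
# Avoiding sets in PG(2,q): transport along an isomorphism of fields
-/

namespace Pool.Agent.Lib.H61I.Sec

open Module LinearAlgebra.Projectivization

universe u v

variable {F : Type u} {K : Type v} [Field F] [Field K]

/-- the coordinatewise semilinear map of an isomorphism -/
def vmap (e : F ≃+* K) : (Fin 3 → F) →ₛₗ[(e : F →+* K)] (Fin 3 → K) where
  toFun v := fun i => e (v i)
  map_add' v w := by funext i; simp
  map_smul' c v := by funext i; simp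

lemma vmap_injective (e : F ≃+* K) : Function.Injective (vmap e) := by
  intro v w h
  funext i
  exact e.injective (congrFun h i)

lemma vmap_surjective (e : F ≃+* K) : Function.Surjective (vmap e) := by
  intro w
  exact ⟨fun i => e.symm (w i), by funext i; exact e.apply_symm_apply _⟩

/-- the induced bijection of the points -/
noncomputable def pmap (e : F ≃+* K) :
    Projectivization F (Fin 3 → F) → Projectivization K (Fin 3 → K) :=
  Projectivization.map (vmap e) (vmap_injective e)

lemma pmap_mk (e : F ≃+* K) (v : Fin 3 → F) (hv : v ≠ 0) :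
    pmap e (Projectivization.mk F v hv) = Projectivization.mk K (vmap e v)
      (map_zero (vmap e) ▸ (vmap_injective e).ne hv) := rfl

lemma pmap_surjective (e : F ≃+* K) : Function.Surjective (pmap e) := by
  intro p
  induction p using Projectivization.ind with
  | h w hw =>
    obtain ⟨v, rfl⟩ := vmap_surjective e w
    have hv : v ≠ 0 := by
      rintro rfl
      exact hw (map_zero _)
    exact ⟨Projectivization.mk F v hv, pmap_mk e v hv⟩

lemma pmap_injective (e : F ≃+* K) : Function.Injective (pmap e) := by
  intro p q h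
  induction p using Projectivization.ind with
  | h v hv =>
    induction q using Projectivization.ind with
    | h w hw =>
      rw [pmap_mk, pmap_mk, Projectivization.mk_eq_mk_iff'] at h
      obtain ⟨a, ha⟩ := h
      rw [Projectivization.mk_eq_mk_iff']
      refine ⟨e.symm a, ?_⟩
      apply vmap_injective e
      rw [← ha]
      funext i
      simp [vmap]

/-- the image of a subspace -/
def smap (e : F ≃+* K) (W : Submodule F (Fin 3 → F)) : Submodule K (Fin 3 → K) where
  carrier := {w | ∃ v ∈ W, vmap e v = w}
  add_mem' := by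
    rintro _ _ ⟨v, hv, rfl⟩ ⟨w, hw, rfl⟩
    exact ⟨v + w, W.add_mem hv hw, map_add _ _ _⟩
  zero_mem' := ⟨0, W.zero_mem, map_zero _⟩
  smul_mem' := by
    rintro c _ ⟨v, hv, rfl⟩
    refine ⟨e.symm c • v, W.smul_mem _ hv, ?_⟩
    funext i
    simp [vmap]

lemma vmap_mem_smap (e : F ≃+* K) (W : Submodule F (Fin 3 → F)) (v : Fin 3 → F) :
    vmap e v ∈ smap e W ↔ v ∈ W := by
  constructor
  · rintro ⟨w, hw, h⟩
    rwa [← vmap_injective e h]
  · intro h
    exact ⟨v, h, rfl⟩

lemma finrank_smap (e : F ≃+* K) (W : Submodule F (Fin 3 → F)) :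
    finrank K (smap e W) = finrank F W := by
  let j : W ≃+ smap e W :=
    { toFun := fun v => ⟨vmap e v, v, v.2, rfl⟩
      invFun := fun w => ⟨fun i => e.symm (w.1 i), by
        obtain ⟨v, hv, h⟩ := w.2
        have : (fun i => e.symm (w.1 i)) = v := by
          rw [← h]
          funext i
          exact e.symm_apply_apply _
        rw [this]
        exact hv⟩
      left_inv := by
        intro v
        ext i
        exact e.symm_apply_apply _
      right_inv := by
        intro w
        ext i
        exact e.apply_symm_apply _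
      map_add' := by
        intro v w
        ext i
        simp [vmap] }
  have h := lift_rank_eq_of_equiv_equiv (R := F) (M := W) (R' := K) (M' := smap e W) e j
    e.bijective (by
      intro r m
      ext i
      simp [j, vmap])
  have h2 := congrArg Cardinal.toNat h
  simp only [Cardinal.toNat_lift] at h2
  exact h2.symm

lemma mem_line (e : F ≃+* K) (W : Submodule F (Fin 3 → F)) (p : Projectivization F (Fin 3 → F)) :
    (pmap e p).submodule ≤ smap e W ↔ p.submodule ≤ W := by
  induction p using Projectivization.ind with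
  | h v hv =>
    rw [pmap_mk, Projectivization.submodule_mk, Projectivization.submodule_mk,
      Submodule.span_singleton_le_iff_mem, Submodule.span_singleton_le_iff_mem, vmap_mem_smap]

/-- avoiding sets are transported along an isomorphism of fields -/
theorem transport (e : F ≃+* K) {k m : ℕ} {T : Set (Projectivization K (Fin 3 → K))}
    (hT : T.ncard = m)
    (hl : ∀ W : Submodule K (Fin 3 → K), finrank K W = 2 →
      (T ∩ {p | p.submodule ≤ W}).ncard ≠ k) :
    ∃ S : Set (Projectivization F (Fin 3 → F)), S.ncard = m ∧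
      ∀ W : Submodule F (Fin 3 → F), finrank F W = 2 →
        (S ∩ {p | p.submodule ≤ W}).ncard ≠ k := by
  refine ⟨pmap e ⁻¹' T, ?_, fun W hW => ?_⟩
  · rw [← hT, ← Set.ncard_image_of_injective _ (pmap_injective e),
      Set.image_preimage_eq T (pmap_surjective e)]
  · have h1 : pmap e ⁻¹' T ∩ {p | p.submodule ≤ W} =
        pmap e ⁻¹' (T ∩ {p | p.submodule ≤ smap e W}) := by
      ext p
      simp only [Set.mem_inter_iff, Set.mem_preimage, Set.mem_ofPred_eq, mem_line]
    rw [h1, ← Set.ncard_image_of_injective _ (pmap_injective e),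
      Set.image_preimage_eq _ (pmap_surjective e)]
    exact hl _ (by rw [finrank_smap, hW])

/-- the theorem of `SecantAvoid` for finite fields in every universe -/
theorem avoid (F : Type u) [Field F] [Finite F] (k : ℕ)
    (h1 : 100 * Real.sqrt (Nat.card F : ℝ) < (k : ℝ))
    (h2 : (k : ℝ) < (Nat.card F : ℝ) + 1 - 100 * Real.sqrt (Nat.card F : ℝ))
    {m : ℕ} (hm : m ≤ Nat.card F ^ 2 + Nat.card F + 1) :
    ∃ S : Set (Projectivization F (Fin 3 → F)), S.ncard = m ∧
      ∀ W : Submodule F (Fin 3 → F), finrank F W = 2 →
        (S ∩ {p | p.submodule ≤ W}).ncard ≠ k := by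
  classical
  let e : F ≃+* Shrink.{0} F := (equivShrink.{0} F).symm.ringEquiv.symm
  haveI : Finite (Shrink.{0} F) := Finite.of_equiv F (equivShrink.{0} F)
  haveI : Fintype (Shrink.{0} F) := Fintype.ofFinite _
  have hc : Nat.card F = Fintype.card (Shrink.{0} F) := by
    rw [Nat.card_congr (equivShrink.{0} F), Nat.card_eq_fintype_card]
  rw [hc] at h1 h2 hm
  set q := Fintype.card (Shrink.{0} F) with hq
  have hs : q < (Nat.sqrt q + 1) * (Nat.sqrt q + 1) := Nat.lt_succ_sqrt _
  have h3 : (Nat.sqrt q : ℝ) ≤ Real.sqrt (q : ℝ) := Real.nat_sqrt_le_real_sqrt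
  have h4 : (1 : ℝ) ≤ Real.sqrt (q : ℝ) := by
    rw [Real.one_le_sqrt]
    exact_mod_cast (Fintype.card_pos : 0 < Fintype.card (Shrink.{0} F))
  obtain ⟨T, hT, hl⟩ := Lib.Helper20.SecantAvoid.of_good (F := Shrink.{0} F) k m
    (Lib.Helper20.SecantAvoid.good_all (s := Nat.sqrt q + 1) hs
      (by
        have : ((36 * (Nat.sqrt q + 1) + 6 : ℕ) : ℝ) ≤ (k : ℝ) := by
          push_cast
          linarith
        exact_mod_cast this)
      (by
        have : ((k + 36 * (Nat.sqrt q + 1) + 5 : ℕ) : ℝ) ≤ (q : ℝ) := by
          push_cast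
          linarith
        exact_mod_cast this)
      hm)
  exact transport e hT hl

end Pool.Agent.Lib.H61I.Sec
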